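import Pool.Agent.Helper52.NF.St3

/-! Project NF, module COV: a join meets every negative cycle. -/

set_option autoImplicit false

namespace Pool.Agent.Helper62.NF

open Pool.Agent.Helper52.NF Finset

open Classical in
private lemma sum_edge {V : Type} [Fintype V] (G : SimpleGraph V) (φ : Equiv.Perm G.Dart)
    (σ : Sym2 V → ZMod 2) (χ : Fc φ → ZMod 2) (c : Sym2 V → ZMod 2)
    (h : ∀ d : G.Dart, χ (fc φ d) + χ (fc φ d.symm) = c d.edge) :
    ∑ d : G.Dart, χ (fc φ d) * σ d.edge = ∑ e ∈ G.edgeFinset, σ e * c e := by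
  have h1 : ∀ d ∈ (univ : Finset G.Dart), d.edge ∈ G.edgeFinset := by
    intro d _
    rw [SimpleGraph.mem_edgeFinset]
    exact d.edge_mem
  rw [← Finset.sum_fiberwise_of_maps_to h1]
  refine Finset.sum_congr rfl fun e he => ?_
  rw [SimpleGraph.mem_edgeFinset] at he
  obtain ⟨d, hd⟩ : ∃ d : G.Dart, d.edge = e := by
    induction e with
    | _ a b => exact ⟨⟨(a, b), he⟩, rfl⟩
  subst hd
  have h2 : (univ.filter fun d' : G.Dart => d'.edge = d.edge) = {d, d.symm} := d.edge_fiber
  rw [h2, Finset.sum_pair d.symm_ne.symm, SimpleGraph.Dart.edge_symm, ← add_mul, h d, mul_comm]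

/-- rotation does not change the face value at a vertex outside of the cycle -/
private lemma const_at {V : Type} {G : SimpleGraph V} [Finite G.Dart] (rot φ : Equiv.Perm G.Dart)
    (hfst : ∀ d, (rot d).fst = d.fst) (hφ : ∀ d, φ d = rot d.symm) (χ : Fc φ → ZMod 2) (u : V)
    (h : ∀ d : G.Dart, d.fst = u → χ (fc φ d) + χ (fc φ d.symm) = 0) (d d' : G.Dart)
    (hd : d.fst = u) (hs : rot.SameCycle d d') : χ (fc φ d') = χ (fc φ d) := by
  have step : ∀ d : G.Dart, d.fst = u → χ (fc φ (rot d)) = χ (fc φ d) := by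
    intro d hd
    have h1 : fc φ d.symm = fc φ (rot d) := by
      have h2 : φ d.symm = rot d := by rw [hφ, SimpleGraph.Dart.symm_symm]
      rw [← h2]
      refine Quotient.sound ?_
      exact ⟨1, by simp⟩
    have h2 := h d hd
    rw [h1] at h2
    have h3 := zz (χ (fc φ d))
    linear_combination h2 - h3
  obtain ⟨i, hi⟩ := hs.exists_nat_pow_eq
  have key : ∀ n : ℕ, ((rot ^ n) d).fst = u ∧ χ (fc φ ((rot ^ n) d)) = χ (fc φ d) := by
    intro n
    induction n with
    | zero => exact ⟨hd, rfl⟩
    | succ n ih =>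
      have h4 : (rot ^ (n + 1)) d = rot ((rot ^ n) d) := by
        rw [pow_succ']
        rfl
      rw [h4]
      exact ⟨(hfst _).trans ih.1, (step _ ih.1).trans ih.2⟩
  rw [← hi]
  exact (key i).2

open Classical in
theorem hCOV (hEU : StEU) (hEVC : StEVC) : StCOV := by
  intro V _ G rot φ hH σ J hJ v c hc hsum
  by_contra hcon
  push Not at hcon
  obtain ⟨hconn, hfst, hsame, hφ, hcard⟩ := hH
  obtain ⟨ind, hind⟩ : ∃ ind : Sym2 V → ZMod 2,
    ind = fun e => if e ∈ c.edges then (1 : ZMod 2) else 0 := ⟨_, rfl⟩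
  obtain ⟨χ, hχ⟩ := hEU V G rot φ ⟨hconn, hfst, hsame, hφ, hcard⟩ ind (by
    intro u
    rw [hind]
    exact hEVC V G v c hc u)
  -- first evaluation
  have e1 : ∑ d : G.Dart, χ (fc φ d) * σ d.edge = 1 := by
    rw [sum_edge G φ σ χ ind hχ]
    have h1 : ∑ e ∈ G.edgeFinset, σ e * ind e = ∑ e ∈ c.edges.toFinset, σ e := by
      have h2 : c.edges.toFinset ⊆ G.edgeFinset := by
        intro e he
        rw [List.mem_toFinset] at he
        rw [SimpleGraph.mem_edgeFinset]
        exact c.edges_subset_edgeSet he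
      rw [← Finset.sum_subset h2]
      · refine Finset.sum_congr rfl fun e he => ?_
        rw [List.mem_toFinset] at he
        rw [hind]
        simp only [he, if_true, mul_one]
      · intro e _ he
        rw [List.mem_toFinset] at he
        rw [hind]
        simp only [he, if_false, mul_zero]
    rw [h1, ← hsum]
    have h3 : c.edges.Nodup := hc.isTrail.edges_nodup
    exact List.sum_toFinset σ h3
  -- second evaluation
  have e2 : ∑ d : G.Dart, χ (fc φ d) * σ d.edge = ∑ d ∈ J, χ (fc φ d) := by
    have hm : ∀ d ∈ (univ : Finset G.Dart), fc φ d ∈ univ.image (fc φ) := fun d _ =>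
      Finset.mem_image_of_mem _ (Finset.mem_univ d)
    have hmJ : ∀ d ∈ J, fc φ d ∈ univ.image (fc φ) := fun d _ =>
      Finset.mem_image_of_mem _ (Finset.mem_univ d)
    rw [← Finset.sum_fiberwise_of_maps_to hm, ← Finset.sum_fiberwise_of_maps_to hmJ]
    refine Finset.sum_congr rfl fun f _ => ?_
    have h1 : ∑ d ∈ univ.filter (fun d : G.Dart => fc φ d = f), χ (fc φ d) * σ d.edge =
        χ f * fs φ σ f := by
      unfold fs
      rw [Finset.mul_sum]
      refine Finset.sum_congr rfl fun d hd => ?_
      rw [(Finset.mem_filter.1 hd).2]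
    have h2 : ∑ d ∈ J.filter (fun d : G.Dart => fc φ d = f), χ (fc φ d) =
        ∑ d ∈ J.filter (fun d : G.Dart => fc φ d = f), χ f * 1 := by
      refine Finset.sum_congr rfl fun d hd => ?_
      rw [(Finset.mem_filter.1 hd).2, mul_one]
    rw [h1, h2, ← Finset.mul_sum]
    congr 1
    have h3 : fs φ σ f = bd (ea φ) (eb φ) J (Sum.inl f) := (hJ (Sum.inl f)).symm
    rw [h3]
    unfold bd
    rw [Finset.sum_filter]
    refine Finset.sum_congr rfl fun d _ => ?_
    have h4 : pt (eb φ d) (Sum.inl f : Fc φ ⊕ V) = 0 := pt_ne (by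
      intro h
      exact absurd h (by simp [eb]))
    rw [h4, add_zero]
    by_cases h5 : fc φ d = f
    · rw [if_pos h5]
      have h6 : ea φ d = Sum.inl f := by rw [← h5]; rfl
      rw [h6]
      exact pt_self _
    · rw [if_neg h5]
      refine pt_ne ?_
      intro h6
      exact h5 (Sum.inl.inj h6).symm
  -- third evaluation
  have e3 : ∑ d ∈ J, χ (fc φ d) = 0 := by
    rw [← Finset.sum_fiberwise_of_maps_to (s := J) (t := (univ : Finset V))
      (g := fun d : G.Dart => d.fst) (fun d _ => Finset.mem_univ _)]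
    refine Finset.sum_eq_zero fun u _ => ?_
    by_cases hne : (J.filter fun d : G.Dart => d.fst = u).Nonempty
    · obtain ⟨d₀, hd₀⟩ := hne
      obtain ⟨hd₀J, hd₀u⟩ := Finset.mem_filter.1 hd₀
      have hu : u ∉ c.support := by
        rw [← hd₀u]
        exact hcon d₀ hd₀J
      have hedge : ∀ d : G.Dart, d.fst = u → χ (fc φ d) + χ (fc φ d.symm) = 0 := by
        intro d hd
        rw [hχ d, hind]
        have h1 : d.edge ∉ c.edges := by
          intro h2
          apply hu
          have h3 : d.edge = s(d.fst, d.snd) := rfl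
          rw [h3] at h2
          rw [← hd]
          exact c.fst_mem_support_of_mem_edges h2
        simp only [h1, if_false]
      have h1 : ∑ d ∈ J.filter (fun d : G.Dart => d.fst = u), χ (fc φ d) =
          ∑ d ∈ J.filter (fun d : G.Dart => d.fst = u), χ (fc φ d₀) * 1 := by
        refine Finset.sum_congr rfl fun d hd => ?_
        rw [mul_one]
        exact const_at rot φ hfst hφ χ u hedge d₀ d hd₀u
          (hsame d₀ d (hd₀u.trans (Finset.mem_filter.1 hd).2.symm))
      rw [h1, ← Finset.mul_sum]
      have h2 : ∑ d ∈ J.filter (fun d : G.Dart => d.fst = u), (1 : ZMod 2) =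
          bd (ea φ) (eb φ) J (Sum.inr u) := by
        unfold bd
        rw [Finset.sum_filter]
        refine Finset.sum_congr rfl fun d _ => ?_
        have h4 : pt (ea φ d) (Sum.inr u : Fc φ ⊕ V) = 0 := pt_ne (by
          intro h
          exact absurd h (by simp [ea]))
        rw [h4, zero_add]
        by_cases h5 : d.fst = u
        · rw [if_pos h5]
          have h6 : eb φ d = Sum.inr u := by rw [← h5]; rfl
          rw [h6]
          exact (pt_self _).symm
        · rw [if_neg h5]
          refine (pt_ne ?_).symm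
          intro h6
          exact h5 (Sum.inr.inj h6).symm
      rw [h2, hJ (Sum.inr u)]
      exact mul_zero _
    · rw [Finset.not_nonempty_iff_eq_empty] at hne
      rw [hne, Finset.sum_empty]
  rw [e2, e3] at e1
  exact absurd e1 (by decide)

end Pool.Agent.Helper62.NF
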